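import Pool.Agent.H93.VK.Vcl
import Pool.Agent.H93.VK.Trv
import Pool.Agent.H93.HM.Clr

set_option autoImplicit false

/-!
# Attaching cells of dimension at least two (MP_5c3080_gt)

`cells_triv`. Let `Ψ` be a path functional on `X = PO (bF F (k + 2)) φ` whose pull back to
`Y` is the coboundary of `gY`. Then `Ψ` is the coboundary of some `g` with `g (jY y) = gY y`.
PROOF. Let `m = k + 2`. `Qb m` is convex, so contractible and simply connected (products of
`unitInterval`; any two paths of `Qb m` with the same ends are homotopic). Let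
`x0 = 0 : Qb m` (all coordinates `0`, in `Bd m`), for `x : Qb m` let `l x` be the path
`t ↦ (fun i => t * x i)` from `x0` to `x`, and
`gB (f, x) = gY (φ (f, x0)) * Φ ((l x).map (chr φ f))` (`jB (f, x0) = jY (φ (f, x0))`).
(1) For every path `β` in `Qb m` from `x` to `x'`: `(l x).trans β` and `l x'` are homotopic, so
`Φ (β.map (chr φ f)) = (gB (f, x))⁻¹ * gB (f, x')`.
(2) For `a ∈ Bd m`: `gB (f, a) = gY (φ (f, a))`: there is a path `α` in `Qb m` from `x0` to `a` which
stays in `Bd m`: let `a i ∈ {0, 1}`. If `a i = 0` then `α = l a` works: the `i`-th coordinate stays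
`0`. If `a i = 1`: choose `j ≠ i` (`m ≥ 2`); move first the `i`-th coordinate from `0` to `1` with all
others `0` (the `j`-th coordinate is `0`), then move the other coordinates linearly with the
`i`-th equal to `1`. Then `chr φ f (α t) = jY (φ (f, α t))` and `φ (f, α ·)` is a path in `Y` (`φ` is
continuous on the boundary: `hD.cont`), so
`Φ (α.map (chr φ f)) = (gY (φ (f, x0)))⁻¹ * gY (φ (f, a))`; and `α`, `l a` are homotopic in `Qb m`.
(3) `g = PO.desc gY gB` (`PO.desc_jY`, `PO.desc_jB` with (2)); `triv_cells`.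

`cells_fil0`: `fil0_iff`: every point `jB (f, x)` is joined to `jB (f, 0) = jY (φ (f, 0))`
(`0 ∈ Bd (k + 1)`) by `t ↦ jB (f, t x)`; the points of `Y` are joined inside `Y`, map by `jY`.
-/

namespace Pool.Agent.H18.VK

open unitInterval Set Pool.Agent.H18.AR Pool.H93.HM Pool.H93.HU Pool.H93.VK Pool.Agent.H4.CU

private theorem qb_contr (m : ℕ) : ContractibleSpace (Qb m) := by
  rw [contractible_iff_id_nullhomotopic]
  refine ⟨fun _ => 0, ⟨⟨⟨fun z => fun i => unitInterval.symm z.1 * z.2 i, ?_⟩, ?_, ?_⟩⟩⟩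
  · refine continuous_pi fun i => ?_
    exact (continuous_symm.comp continuous_fst).mul ((continuous_apply i).comp continuous_snd)
  · intro x
    funext i
    simp
  · intro x
    funext i
    simp

/-- the path from the origin -/
private noncomputable def ray {m : ℕ} (x : Qb m) : Path (0 : Qb m) x where
  toFun t := fun i => t * x i
  continuous_toFun := continuous_pi fun i => continuous_id.mul continuous_const
  source' := by
    funext i
    exact zero_mul _
  target' := by
    funext i
    exact one_mul _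

/-- the path in the direction `i` -/
private noncomputable def pa1 {m : ℕ} (i : Fin m) :
    Path (0 : Qb m) (fun j => if j = i then 1 else 0) where
  toFun t := fun j => if j = i then t else 0
  continuous_toFun := by
    refine continuous_pi fun j => ?_
    by_cases h : j = i
    · simp only [if_pos h]
      exact continuous_id
    · simp only [if_neg h]
      exact continuous_const
  source' := by
    funext j
    show (if j = i then (0 : I) else 0) = 0
    exact ite_self _
  target' := rfl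

/-- the path in the face `i` -/
private noncomputable def pa2 {m : ℕ} (i : Fin m) (a : Qb m) (ha : a i = 1) :
    Path (fun j => if j = i then 1 else 0 : Qb m) a where
  toFun t := fun j => if j = i then 1 else t * a j
  continuous_toFun := by
    refine continuous_pi fun j => ?_
    by_cases h : j = i
    · simp only [if_pos h]
      exact continuous_const
    · simp only [if_neg h]
      exact continuous_id.mul continuous_const
  source' := by
    funext j
    show (if j = i then (1 : I) else 0 * a j) = if j = i then 1 else 0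
    rw [zero_mul]
  target' := by
    funext j
    show (if j = i then (1 : I) else 1 * a j) = a j
    by_cases h : j = i
    · rw [if_pos h, h, ha]
    · rw [if_neg h, one_mul]

private theorem bd_path {F Y : Type} [TopologicalSpace F] [DiscreteTopology F]
    [TopologicalSpace Y] {m : ℕ} {φ : F × Qb m → Y} (hD : POData (bF F m) φ)
    {G : Type} [Group G] (Ψ : PF (PO (bF F m) φ) G) (gY : Y → G)
    (h1 : Triv (Ψ.comp (jYc (bF F m) φ)) gY) (f : F) {b b' : Qb m} (β : Path b b')
    (hβ : ∀ t, β t ∈ Pool.H93.HU.Bd m) :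
    (Ψ.comp (chr φ f)).Φ β = (gY (φ (f, b)))⁻¹ * gY (φ (f, b')) := by
  have hc : Continuous fun t : I => φ (f, β t) := by
    have h2 : ContinuousOn (fun t : I => φ (f, β t)) Set.univ := by
      refine hD.cont.comp (Continuous.continuousOn (continuous_const.prodMk β.continuous)) ?_
      intro t _
      exact hβ t
    exact continuousOn_univ.1 h2
  obtain ⟨q, hq⟩ : ∃ q : Path (φ (f, b)) (φ (f, b')), ∀ t, q t = φ (f, β t) := by
    refine ⟨⟨⟨fun t => φ (f, β t), hc⟩, ?_, ?_⟩, fun _ => rfl⟩
    · show φ (f, β 0) = _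
      rw [β.source]
    · show φ (f, β 1) = _
      rw [β.target]
  have hb0 : b ∈ Pool.H93.HU.Bd m := by
    have := hβ 0
    rwa [β.source] at this
  have hb1 : b' ∈ Pool.H93.HU.Bd m := by
    have := hβ 1
    rwa [β.target] at this
  have e0 : ∀ c ∈ Pool.H93.HU.Bd m, chr φ f c = jYc (bF F m) φ (φ (f, c)) := by
    intro c hc
    exact PO.jB_mem (A := bF F m) (φ := φ) (b := (f, c)) hc
  have hpq : β.map (chr φ f).continuous =
      (q.map (jYc (bF F m) φ).continuous).cast (e0 b hb0) (e0 b' hb1) := by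
    ext t
    rw [Path.cast_coe, Path.map_coe, Path.map_coe, Function.comp_apply, Function.comp_apply, hq]
    exact e0 _ (hβ t)
  show Ψ.Φ (β.map (chr φ f).continuous) = _
  rw [hpq, PF.cast']
  exact h1 _ _ q

theorem cells_triv {F Y : Type} [TopologicalSpace F] [DiscreteTopology F] [TopologicalSpace Y]
    (k : ℕ) {φ : F × Qb (k + 2) → Y} (hD : POData (bF F (k + 2)) φ) (hY : LCS Y)
    (hB : LCS (F × Qb (k + 2))) {G : Type} [Group G] (Ψ : PF (PO (bF F (k + 2)) φ) G)
    (gY : Y → G) (h1 : Triv (Ψ.comp (jYc (bF F (k + 2)) φ)) gY) :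
    ∃ g, Triv Ψ g ∧ ∀ y, g (PO.jY (bF F (k + 2)) φ y) = gY y := by
  have hcs := qb_contr (k + 2)
  have hhom : ∀ (f : F) {x x' : Qb (k + 2)} (p q : Path x x'),
      (Ψ.comp (chr φ f)).Φ p = (Ψ.comp (chr φ f)).Φ q := fun f x x' p q =>
    (Ψ.comp (chr φ f)).hom' p q (SimplyConnectedSpace.paths_homotopic p q)
  obtain ⟨gB, hgB⟩ : ∃ gB : F × Qb (k + 2) → G, ∀ f x, gB (f, x) =
      gY (φ (f, 0)) * (Ψ.comp (chr φ f)).Φ (ray x) :=
    ⟨fun z => gY (φ (z.1, 0)) * (Ψ.comp (chr φ z.1)).Φ (ray z.2), fun _ _ => rfl⟩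
  have hbd : ∀ a ∈ bF F (k + 2), gB a = gY (φ a) := by
    rintro ⟨f, a⟩ ha
    rw [hgB]
    have ha' : a ∈ Pool.H93.HU.Bd (k + 2) := ha
    obtain ⟨i, h0 | h0⟩ := ha'
    · rw [bd_path hD Ψ gY h1 f (ray a) fun t => ⟨i, Or.inl ?_⟩, mul_inv_cancel_left]
      show t * a i = 0
      rw [h0, mul_zero]
    · obtain ⟨j, hj⟩ : ∃ j : Fin (k + 2), j ≠ i := exists_ne i
      rw [hhom f (ray a) ((pa1 i).trans (pa2 i a h0)), (Ψ.comp (chr φ f)).mul',
        bd_path hD Ψ gY h1 f (pa1 i) fun t => ⟨j, Or.inl ?_⟩,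
        bd_path hD Ψ gY h1 f (pa2 i a h0) fun t => ⟨i, Or.inr ?_⟩]
      · group
      · show (if i = i then (1 : I) else t * a i) = 1
        exact if_pos rfl
      · show (if j = i then t else 0) = 0
        exact if_neg hj
  refine ⟨PO.desc gY gB, ?_, fun y => rfl⟩
  refine triv_cells hD hY hB Ψ _ ?_ ?_
  · exact h1
  · intro f x y p
    have e : ∀ z, PO.desc (A := bF F (k + 2)) (φ := φ) gY gB (chr φ f z) = gB (f, z) := fun z =>
      PO.desc_jB gY gB hbd (f, z)
    show (Ψ.comp (chr φ f)).Φ p = (PO.desc (A := bF F (k + 2)) (φ := φ) gY gB (chr φ f x))⁻¹ *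
      PO.desc (A := bF F (k + 2)) (φ := φ) gY gB (chr φ f y)
    rw [e, e, hgB, hgB, hhom f (ray y) ((ray x).trans p), (Ψ.comp (chr φ f)).mul']
    group

theorem cells_fil0 {F Y : Type} [TopologicalSpace F] [DiscreteTopology F] [TopologicalSpace Y]
    (k : ℕ) (φ : F × Qb (k + 1) → Y) (h : Fil Y 0) : Fil (PO (bF F (k + 1)) φ) 0 := by
  rw [fil0_iff] at h ⊢
  have h1 : ∀ z : PO (bF F (k + 1)) φ, ∃ y, Joined z (PO.jY (bF F (k + 1)) φ y) := by
    intro z
    rcases PO.cases_mk z with ⟨y, rfl⟩ | ⟨⟨f, x⟩, -, rfl⟩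
    · exact ⟨y, Joined.refl _⟩
    · refine ⟨φ (f, 0), ?_⟩
      have h2 : PO.jB (bF F (k + 1)) φ (f, 0) = PO.jY (bF F (k + 1)) φ (φ (f, 0)) :=
        PO.jB_mem (A := bF F (k + 1)) (φ := φ) (b := (f, 0)) ⟨0, Or.inl rfl⟩
      rw [← h2]
      exact ⟨((ray x).map (chr φ f).continuous).symm⟩
  intro z z'
  obtain ⟨y, hy⟩ := h1 z
  obtain ⟨y', hy'⟩ := h1 z'
  obtain ⟨p⟩ := h y y'
  exact (hy.trans ⟨p.map (jYc (bF F (k + 1)) φ).continuous⟩).trans hy'.symm

end Pool.Agent.H18.VK
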