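import Pool.Agent.H18.VK.AF
import Pool.Agent.H18.AR.ReE

set_option autoImplicit false

/-!
# The 1-skeleton of a precubical set (MP_5c3080_gt)

Notation of `H18/AR/ReD.lean`: `Re.stage N 0 = Cu N 0` discrete, `Re.stage N 1` = `PO` over
`Cu N 1 × Cb 1`; `edge c : Path (start) (end)`, `t ↦ jB (c, fun _ => t)` in the 1-skeleton.

`edge_zero`, `edge_one`: `fun _ => 0` is in `Bd 1`, so `jB = jY ∘ att` (`PO.jB_mem`), and
`att (c, x) = ch (fa 0 0 e c) _ = fa 0 0 e c` (`Re.att_eq` with `Re.good_zero`; or directly from the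
definition of `att`: `Fin 1` has one element).

`graph_triv`: let `Ψ` be a path functional on `(stage N 1).X` and `h : N.cub 0 → G` with
`Φ (edge c) = (h (start))⁻¹ * h (end)`, start `= fa 0 0 false c`, end `= fa 0 0 true c`. Then `Ψ` is the
coboundary of some `g`. PROOF. `triv_cells` (`Re.att_podata`, `Re.good_zero`, `LCS` of
`Cu N 1 × Cb 1`: `lcs_prod lcs_discrete lcs_compact`; `bdry N 1` is `bF (Cu N 1) 1` by definition).
`gB (c, x) = h (start c) * Φ (t ↦ jB (c, t * x))`, `g = PO.desc h gB`; compatible: at `x = 0` the path is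
constant (`PF.const'`), at `x = 1` it is `edge c`, value `h (start) * (h start)⁻¹ * h (end)`. On
`Y = Cu N 0` (discrete) every path is constant (`PF.const'`). On the cells: `Qb 1` is simply
connected, as in `cells_triv` (1).

`graph_fil0`: `N.Conn` ==> `Fil (stage N 1).X 0`: `fil0_iff`: for a fixed vertex `v` the
predicate `f c := Joined (jY v) (jY c)` satisfies `f (start) ↔ f (end)` for every edge (`edge c` is a
path between them), so all vertices are joined; a point `jB (c, x)` is joined to the vertex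
`jB (c, 0)`.
-/

namespace Pool.Agent.H18.VK

open unitInterval Set Pool.Agent.H18.AR Pool.H93.HM Pool.H93.HU Pool.H93.VK
  Pool.Agent.H59.FS

variable {N : PreCub}

private theorem att_zero (N : PreCub) (c : Re.Cu N 1) (x : Cb 1) (e : Bool) (h : x 0 = ep e) :
    Re.att N (Re.stage N 0) (c, x) = N.fa 0 0 e c := by
  classical
  have hex : ∃ i, x i = 0 ∨ x i = 1 := by
    refine ⟨0, ?_⟩
    rw [h]
    cases e
    · exact Or.inl rfl
    · exact Or.inr rfl
  unfold Re.att
  dsimp only
  rw [dif_pos hex]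
  have hj : hex.choose = 0 := Subsingleton.elim _ _
  have hd : decide (x 0 = 1) = e := by
    rw [h]
    cases e
    · exact decide_eq_false zero_ne_one
    · exact decide_eq_true rfl
  change N.fa 0 hex.choose (decide (x hex.choose = 1)) c = N.fa 0 0 e c
  rw [hj, hd]

/-- the edge `c` in the 1-skeleton -/
noncomputable def edge (N : PreCub) (c : Re.Cu N 1) (t : I) : (Re.stage N 1).X :=
  (Re.stage N 1).ch c (fun _ => t)

theorem edge_continuous (c : Re.Cu N 1) : Continuous (edge N c) := by
  have h : Continuous (fun t : I => ((c, fun _ => t) : Re.Cu N 1 × Cb 1)) :=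
    continuous_const.prodMk (continuous_pi fun _ => continuous_id)
  exact (PO.jB_continuous (A := Re.bdry N 1) (φ := Re.att N (Re.stage N 0))).comp h

theorem edge_zero (c : Re.Cu N 1) : edge N c 0 = Re.vtx N 1 (N.fa 0 0 false c) := by
  change PO.jB (Re.bdry N 1) (Re.att N (Re.stage N 0)) (c, fun _ => 0) = _
  have hm : ((c, fun _ => 0) : Re.Cu N 1 × Cb 1) ∈ Re.bdry N 1 := ⟨0, Or.inl rfl⟩
  rw [PO.jB_mem hm, att_zero N c (fun _ => 0) false rfl]
  rfl

theorem edge_one (c : Re.Cu N 1) : edge N c 1 = Re.vtx N 1 (N.fa 0 0 true c) := by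
  change PO.jB (Re.bdry N 1) (Re.att N (Re.stage N 0)) (c, fun _ => 1) = _
  have hm : ((c, fun _ => 1) : Re.Cu N 1 × Cb 1) ∈ Re.bdry N 1 := ⟨0, Or.inr rfl⟩
  rw [PO.jB_mem hm, att_zero N c (fun _ => 1) true rfl]
  rfl

/-- the edge `c` as a path -/
noncomputable def edgeP (N : PreCub) (c : Re.Cu N 1) : Path (edge N c 0) (edge N c 1) where
  toFun := edge N c
  continuous_toFun := edge_continuous c
  source' := rfl
  target' := rfl

/-- the linear path from the origin -/
private noncomputable def lp {k : ℕ} (x : Cb k) : Path (fun _ => 0 : Cb k) x where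
  toFun t := fun i => t * x i
  continuous_toFun := by fun_prop
  source' := by
    funext i
    exact zero_mul _
  target' := by
    funext i
    exact one_mul _

private theorem cb_hom {k : ℕ} {x y : Cb k} (p q : Path x y) : p.Homotopic q := by
  haveI hc : ContractibleSpace I := (convex_Icc (0 : ℝ) 1).contractibleSpace ⟨0, by simp⟩
  have h : (Path.Homotopic.Quotient.mk p) = Path.Homotopic.Quotient.mk q := by
    rw [← Path.Homotopic.pi_proj (Path.Homotopic.Quotient.mk p),
      ← Path.Homotopic.pi_proj (Path.Homotopic.Quotient.mk q)]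
    congr 1
    funext i
    exact Subsingleton.elim _ _
  exact Path.Homotopic.Quotient.eq.1 h

theorem graph_triv (hC : ∀ n, Countable (N.cub n)) (hL : N.LocFin) {G : Type} [Group G]
    (Ψ : PF (Re.stage N 1).X G) (h : N.cub 0 → G)
    (hh : ∀ c : N.cub 1, Ψ.Φ (edgeP N c) = (h (N.fa 0 0 false c))⁻¹ * h (N.fa 0 0 true c)) :
    ∃ g, Triv Ψ g := by
  haveI hC0 : Countable (N.cub 0) := hC 0
  haveI hC0' : Countable (Re.Cu N 0) := hC 0
  haveI hC1' : Countable (Re.Cu N 1) := hC 1
  have hD : POData (bF (Re.Cu N 1) 1) (Re.att N (Re.stage N 0)) :=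
    Re.att_podata (N := N) (n := 0) (S := Re.stage N 0) Re.good_zero hL
  have hY : LCS (Re.stage N 0).X := lcs_discrete (D := Re.Cu N 0)
  have hB : LCS (Re.Cu N 1 × Cb 1) := lcs_prod lcs_discrete lcs_compact
  let Ψ' : PF (PO (bF (Re.Cu N 1) 1) (Re.att N (Re.stage N 0))) G := Ψ
  let gB : Re.Cu N 1 × Cb 1 → G := fun z =>
    h (N.fa 0 0 false z.1) * (Ψ'.comp (chr (Re.att N (Re.stage N 0)) z.1)).Φ (lp z.2)
  let g : PO (bF (Re.Cu N 1) 1) (Re.att N (Re.stage N 0)) → G := PO.desc h gB
  have hcomp : ∀ a ∈ bF (Re.Cu N 1) 1, gB a = h (Re.att N (Re.stage N 0) a) := by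
    rintro ⟨c, x⟩ ⟨i, hi⟩
    have hi0 : i = 0 := Subsingleton.elim _ _
    subst hi0
    rcases hi with hi | hi
    · have hx : x = fun _ => 0 := by
        funext j
        have hj : j = 0 := Subsingleton.elim _ _
        rw [hj]
        exact hi
      rw [att_zero N c x false hi]
      change h (N.fa 0 0 false c) * (Ψ'.comp (chr (Re.att N (Re.stage N 0)) c)).Φ (lp x) =
        h (N.fa 0 0 false c)
      rw [PF.const', mul_one]
      intro t
      funext j
      change t * x j = 0
      rw [hx]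
      exact mul_zero _
    · have hx : x = fun _ => 1 := by
        funext j
        have hj : j = 0 := Subsingleton.elim _ _
        rw [hj]
        exact hi
      rw [att_zero N c x true hi]
      subst hx
      change h (N.fa 0 0 false c) *
        (Ψ'.comp (chr (Re.att N (Re.stage N 0)) c)).Φ (lp (fun _ => 1)) =
        h (N.fa 0 0 true c)
      have e1 : (Ψ'.comp (chr (Re.att N (Re.stage N 0)) c)).Φ (lp (fun _ => 1)) =
          Ψ.Φ (edgeP N c) := by
        have h2 : (lp (fun _ => 1 : Cb 1)).map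
            (chr (Re.att N (Re.stage N 0)) c).continuous = edgeP N c := by
          ext t
          change PO.jB (bF (Re.Cu N 1) 1) (Re.att N (Re.stage N 0)) (c, fun _ => t * 1) =
            PO.jB (bF (Re.Cu N 1) 1) (Re.att N (Re.stage N 0)) (c, fun _ => t)
          rw [mul_one]
        exact congrArg Ψ.Φ h2
      rw [e1, hh]
      group
  have hgB : ∀ c x, g (chr (Re.att N (Re.stage N 0)) c x) = gB (c, x) := by
    intro c x
    exact PO.desc_jB (A := bF (Re.Cu N 1) 1) (φ := Re.att N (Re.stage N 0)) h gB hcomp (c, x)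
  refine ⟨g, triv_cells (F := Re.Cu N 1) (Y := (Re.stage N 0).X) (k := 1) hD hY hB Ψ' g ?_ ?_⟩
  · intro y y' p
    haveI hdisc : DiscreteTopology (Re.stage N 0).X :=
      inferInstanceAs (DiscreteTopology (Re.Cu N 0))
    have hl := (IsLocallyConstant.iff_continuous _).2 p.continuous
    have hc : ∀ t, p t = y := by
      intro t
      have h3 := hl.apply_eq_of_preconnectedSpace t 0
      rw [h3, p.source]
    have hyy : y' = y := by
      have h3 := hc 1
      rw [p.target] at h3
      exact h3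
    rw [PF.const' _ p hc, hyy, inv_mul_cancel]
  · intro c x x' p
    change _ = (g (chr (Re.att N (Re.stage N 0)) c x))⁻¹ * g (chr (Re.att N (Re.stage N 0)) c x')
    rw [hgB, hgB]
    change _ = (h (N.fa 0 0 false c) * (Ψ'.comp (chr (Re.att N (Re.stage N 0)) c)).Φ (lp x))⁻¹ *
      (h (N.fa 0 0 false c) * (Ψ'.comp (chr (Re.att N (Re.stage N 0)) c)).Φ (lp x'))
    rw [← (Ψ'.comp (chr (Re.att N (Re.stage N 0)) c)).hom' _ _ (cb_hom ((lp x).trans p) (lp x')),
      PF.mul']
    group

theorem graph_fil0 (hN : N.Conn) : Fil (Re.stage N 1).X 0 := by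
  rw [fil0_iff]
  have hX : ∀ c : N.cub 1, Joined (Re.vtx N 1 (N.fa 0 0 false c))
      (Re.vtx N 1 (N.fa 0 0 true c)) := by
    intro c
    have h : Joined (edge N c 0) (edge N c 1) := ⟨edgeP N c⟩
    rw [edge_zero, edge_one] at h
    exact h
  have hv : ∀ c d : N.cub 0, Joined (Re.vtx N 1 c) (Re.vtx N 1 d) := by
    intro c d
    refine (hN.2 (fun d => Joined (Re.vtx N 1 c) (Re.vtx N 1 d)) (fun b => ?_) c d).1
      (Joined.refl _)
    exact ⟨fun h => h.trans (hX b), fun h => h.trans (hX b).symm⟩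
  have hx : ∀ x : (Re.stage N 1).X, ∃ c, Joined (Re.vtx N 1 c) x := by
    intro x
    rcases PO.cases_mk (A := Re.bdry N 1) (φ := Re.att N (Re.stage N 0)) x with
      ⟨y, rfl⟩ | ⟨⟨c, b⟩, -, rfl⟩
    · exact ⟨y, Joined.refl _⟩
    · refine ⟨N.fa 0 0 false c, ?_⟩
      rw [← edge_zero]
      exact ⟨(lp b).map (chr (Re.att N (Re.stage N 0)) c).continuous⟩
  intro x y
  obtain ⟨c, hc⟩ := hx x
  obtain ⟨d, hd⟩ := hx y
  exact (hc.symm.trans (hv c d)).trans hd

end Pool.Agent.H18.VK
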