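import Pool.Agent.H18.VK.AG

set_option autoImplicit false

/-!
# Simple connectivity of the realisation (MP_5c3080_gt)

`edge2`: the inclusion of the 1-skeleton into the 2-skeleton, `jYc (bdry N 2) (att N (stage N 1))`.

`square_rel`: for a path functional `Ψ` on `(stage N 2).X` let
`f c = (Ψ.comp j).Φ (edgeP N c)` for `c : N.cub 1`, `j` the inclusion. For `c : N.cub 2`:
`f (fa 1 1 false c) * f (fa 1 0 true c) = f (fa 1 0 false c) * f (fa 1 1 true c)`. PROOF. `PF.square` for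
`H (s, t) = jB (c, ![s, t])` (coordinate `0` is `s`, coordinate `1` is `t`). For `t = 0`:
`![s, 0] = fc 1 0 (fun _ => s)` is in the boundary, so
`jB (c, ![s, 0]) = jY (att (c, ..)) = jY (ch (fa 1 1 false c) (pr 1 ..)) = jY (edge (fa 1 1 false c) s)`
(`Re.att_eq` with `i = 1`, `e = false`, `Re.good_stage`; `pr 1 ![s, 0] = fun _ => s`). So `row H 0` is
the edge `fa 1 1 false c`, `col H 1` is the edge `fa 1 0 true c`, `col H 0` is `fa 1 0 false c`, `row H 1` is
`fa 1 1 true c` (up to casts: `PF.cast'`, `Path.ext`).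

`stage_sc1`: `N.SC` ==> `SC1 (stage N (n + 2)).X`. Induction on `n`. `n = 0`: `Ψ` on stage 2; by
`square_rel` and `N.SC` there is `h` with `f c = (h ..)⁻¹ * h ..`; `graph_triv` for
`Ψ.comp j`: a function `g1` on the 1-skeleton; `cells_triv 0` extends it. Step: `SC1` of stage
`n + 2` gives `gY`, `cells_triv (n + 1)` (stage `n + 3` is `PO` over `Cu N (n + 3) × Cb (n + 3)`;
`Re.att_podata`, `Re.good_stage`).

`stage_fil0`: `N.Conn` ==> `Fil 0` of stage `n + 1`: `graph_fil0`, `cells_fil0`.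

`stage_fil1`: `fil1_of_sc1`.
-/

namespace Pool.Agent.H18.VK

open unitInterval Set Pool.Agent.H18.AR Pool.H93.HM Pool.H93.HU Pool.H93.VK
  Pool.Agent.H59.FS

variable {N : PreCub}

/-- the inclusion of the 1-skeleton into the 2-skeleton -/
noncomputable def edge2 (N : PreCub) : C((Re.stage N 1).X, (Re.stage N 2).X) :=
  jYc (Re.bdry N 2) (Re.att N (Re.stage N 1))

private theorem pf_congr {X : Type} [TopologicalSpace X] {G : Type} [Group G] (F : PF X G)
    {x y x' y' : X} (p : Path x y) (q : Path x' y') (h : ∀ t, p t = q t) : F.Φ p = F.Φ q := by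
  have h0 : x = x' := by
    rw [← p.source, ← q.source]
    exact h 0
  have h1 : y = y' := by
    rw [← p.target, ← q.target]
    exact h 1
  subst h0
  subst h1
  have h2 : p = q := by
    ext t
    exact h t
  rw [h2]

/-- the characteristic map of the square `c` -/
private noncomputable def sqH (N : PreCub) (hC : ∀ n, Countable (N.cub n)) (hL : N.LocFin)
    (c : N.cub 2) : C(I × I, (Re.stage N 2).X) where
  toFun z := (Re.stage N 2).ch c ![z.1, z.2]
  continuous_toFun := by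
    have h1 : Continuous fun z : I × I =>
        (fun w : Re.Cu N 2 × Cb 2 => (Re.stage N 2).ch w.1 w.2) ((c : Re.Cu N 2), ![z.1, z.2]) := by
      refine (Re.good_stage hC hL 2).ch_cont.comp (continuous_const.prodMk ?_)
      refine continuous_pi fun i => ?_
      fin_cases i
      · exact continuous_fst
      · exact continuous_snd
    exact h1

private theorem sq_face (hC : ∀ n, Countable (N.cub n)) (hL : N.LocFin) (c : N.cub 2) (x : Cb 2)
    (i : Fin 2) (e : Bool) (hx : x i = ep e) (t : I) (hp : (pr i x : Cb 1) = fun _ => t) :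
    (Re.stage N 2).ch c x = edge2 N (edge N (N.fa 1 i e c) t) := by
  have hm : ((c, x) : Re.Cu N 2 × Cb 2) ∈ Re.bdry N 2 := by
    refine ⟨i, ?_⟩
    change x i = 0 ∨ x i = 1
    rw [hx]
    cases e
    · exact Or.inl rfl
    · exact Or.inr rfl
  change PO.jB (Re.bdry N 2) (Re.att N (Re.stage N 1)) (c, x) =
    PO.jY (Re.bdry N 2) (Re.att N (Re.stage N 1)) (edge N (N.fa 1 i e c) t)
  rw [PO.jB_mem hm, Re.att_eq (Re.good_stage hC hL 1) c x i e hx, hp]
  rfl

theorem square_rel (hC : ∀ n, Countable (N.cub n)) (hL : N.LocFin) {G : Type} [Group G]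
    (Ψ : PF (Re.stage N 2).X G) (c : N.cub 2) :
    (Ψ.comp (edge2 N)).Φ (edgeP N (N.fa 1 1 false c)) *
        (Ψ.comp (edge2 N)).Φ (edgeP N (N.fa 1 0 true c)) =
      (Ψ.comp (edge2 N)).Φ (edgeP N (N.fa 1 0 false c)) *
        (Ψ.comp (edge2 N)).Φ (edgeP N (N.fa 1 1 true c)) := by
  have h := Ψ.square (sqH N hC hL c)
  have p1 : ∀ s t : I, (pr (1 : Fin 2) (![s, t] : Cb 2) : Cb 1) = fun _ => s := by
    intro s t
    funext j
    have hj : j = 0 := Subsingleton.elim _ _
    subst hj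
    rfl
  have p0 : ∀ s t : I, (pr (0 : Fin 2) (![s, t] : Cb 2) : Cb 1) = fun _ => t := by
    intro s t
    funext j
    have hj : j = 0 := Subsingleton.elim _ _
    subst hj
    rfl
  have e1 : Ψ.Φ (row (sqH N hC hL c) 0) = (Ψ.comp (edge2 N)).Φ (edgeP N (N.fa 1 1 false c)) := by
    refine pf_congr Ψ _ ((edgeP N (N.fa 1 1 false c)).map (edge2 N).continuous) fun s => ?_
    exact sq_face hC hL c ![s, 0] 1 false rfl s (p1 s 0)
  have e2 : Ψ.Φ (row (sqH N hC hL c) 1) = (Ψ.comp (edge2 N)).Φ (edgeP N (N.fa 1 1 true c)) := by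
    refine pf_congr Ψ _ ((edgeP N (N.fa 1 1 true c)).map (edge2 N).continuous) fun s => ?_
    exact sq_face hC hL c ![s, 1] 1 true rfl s (p1 s 1)
  have e3 : Ψ.Φ (col (sqH N hC hL c) 0) = (Ψ.comp (edge2 N)).Φ (edgeP N (N.fa 1 0 false c)) := by
    refine pf_congr Ψ _ ((edgeP N (N.fa 1 0 false c)).map (edge2 N).continuous) fun t => ?_
    exact sq_face hC hL c ![0, t] 0 false rfl t (p0 0 t)
  have e4 : Ψ.Φ (col (sqH N hC hL c) 1) = (Ψ.comp (edge2 N)).Φ (edgeP N (N.fa 1 0 true c)) := by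
    refine pf_congr Ψ _ ((edgeP N (N.fa 1 0 true c)).map (edge2 N).continuous) fun t => ?_
    exact sq_face hC hL c ![1, t] 0 true rfl t (p0 1 t)
  rw [e1, e2, e3, e4] at h
  exact h.symm

private theorem cu_lcs (hC : ∀ n, Countable (N.cub n)) (n : ℕ) :
    LCS (Re.Cu N n × Pool.Agent.H4.CU.Qb n) := by
  have hc : Countable (Re.Cu N n) := hC n
  exact lcs_prod lcs_discrete lcs_compact

private theorem step_sc1 (hC : ∀ n, Countable (N.cub n)) (hL : N.LocFin) (n : ℕ) {G : Type}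
    [Group G] (Ψ : PF (Re.stage N (n + 2)).X G) (gY : (Re.stage N (n + 1)).X → G)
    (h1 : Triv (Ψ.comp (jYc (Re.bdry N (n + 2)) (Re.att N (Re.stage N (n + 1))))) gY) :
    ∃ g, Triv Ψ g := by
  have hD : POData (bF (Re.Cu N (n + 2)) (n + 2)) (Re.att N (Re.stage N (n + 1))) :=
    Re.att_podata (Re.good_stage hC hL (n + 1)) hL
  obtain ⟨g, hg, -⟩ := cells_triv (F := Re.Cu N (n + 2)) (Y := (Re.stage N (n + 1)).X) n hD
    (Re.good_stage hC hL (n + 1)).lcs (cu_lcs hC (n + 2)) Ψ gY h1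
  exact ⟨g, hg⟩

theorem stage_sc1 (hC : ∀ n, Countable (N.cub n)) (hL : N.LocFin) (hS : N.SC) (n : ℕ) :
    SC1 (Re.stage N (n + 2)).X := by
  induction n with
  | zero =>
    intro G _ Ψ
    obtain ⟨h, hh⟩ := hS G (fun c => (Ψ.comp (edge2 N)).Φ (edgeP N c))
      (fun c => square_rel hC hL Ψ c)
    obtain ⟨g1, hg1⟩ := graph_triv hC hL (Ψ.comp (edge2 N)) h hh
    exact step_sc1 hC hL 0 Ψ g1 hg1
  | succ n ih =>
    intro G _ Ψ
    obtain ⟨gY, hY⟩ := ih G (Ψ.comp (jYc (Re.bdry N (n + 1 + 2)) (Re.att N (Re.stage N (n + 1 + 1)))))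
    exact step_sc1 hC hL (n + 1) Ψ gY hY

theorem stage_fil0 (hN : N.Conn) (n : ℕ) : Fil (Re.stage N (n + 1)).X 0 := by
  induction n with
  | zero => exact graph_fil0 hN
  | succ n ih =>
    exact cells_fil0 (F := Re.Cu N (n + 1 + 1)) (Y := (Re.stage N (n + 1)).X) (n + 1)
      (Re.att N (Re.stage N (n + 1))) ih

theorem stage_fil1 (hC : ∀ n, Countable (N.cub n)) (hL : N.LocFin) (hS : N.SC) (hN : N.Conn)
    (n : ℕ) : Fil (Re.stage N (n + 2)).X 1 :=
  fil1_of_sc1 (stage_fil0 hN (n + 1)) (stage_sc1 hC hL hS n)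

end Pool.Agent.H18.VK
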