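import Pool.Agent.H18.VK.AF
import Pool.Agent.H93.VK.Vhc
import Pool.Agent.H18.AR.WdT
import Pool.Agent.H18.AR.TelT

set_option autoImplicit false

/-!
# Simple connectivity of the wedge of spheres and of the telescope (MP_5c3080_gt)

`wdg_fil0`, `wdg_sc1` (`m = k + 2`): `Wdg R r m = PO (wbd R r m) (watt R r m)` over the point `Unit`, with
`F = Sx R r` (`wbd R r m` is `bF (Sx R r) m` by definition): `cells_fil0`, `cells_triv` with
`Wdg.wdg_podata`; every path functional on the point `Unit` is the coboundary of `1` (all paths are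
constant, `PF.const'`). `wdg_fil1`: `fil1_of_sc1`.

`rec_int`: for `ρ : ℤ → G` there is `h : ℤ → G` with `h k = h (k - 1) * ρ k` for all `k`
(define `h` on `ℕ` by recursion, `h 0 = 1`, `h (n + 1) = h n * ρ (n + 1)`, and on `-(n + 1)` by
`h (-(n+1)) = h (-n) * (ρ (-n))⁻¹`; pattern matching on `Int` or `Int.induction_on`).

`tel_sc1`, `tel_fil0`: `sc1_hc`, `fil0_hc` with `V = E = ℤ × L`, `ι = κ = ℤ`, `cV = cE = Prod.fst`,
`a k = k - 1`, `b k = k`, `d₀ = telD0 q`, `d₁ = telD1 p` as continuous maps. `L` is path connected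
(`Fil L 0`, `fil0_iff`), `ℤ` is discrete: `v.1 = v'.1 ↔ Joined v v'` (a path in `ℤ × L` has constant
first coordinate). `SC1 (ℤ × L)`: `sc1_prod`. `hT`: `rec_int`. `hconn`: `L` is nonempty, so
`f (k - 1) ↔ f k` for all `k`; induction on integers. `tel_fil1`: `fil1_of_sc1`.
-/

namespace Pool.Agent.H18.VK

open unitInterval Set TopologicalSpace Pool.Agent.H18.AR Pool.H93.HM Pool.H93.HU Pool.H93.VK

theorem wdg_fil0 (R : Type) [Finite R] (r k : ℕ) : Fil (Wdg R r (k + 1)) 0 := by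
  have h : Fil Unit 0 := by
    rw [fil0_iff]
    rintro ⟨⟩ ⟨⟩
    exact Joined.refl _
  exact cells_fil0 (F := Sx R r) (Y := Unit) k (watt R r (k + 1)) h

theorem wdg_sc1 (R : Type) [Finite R] (r k : ℕ) : SC1 (Wdg R r (k + 2)) := by
  intro G _ Ψ
  have hD : POData (bF (Sx R r) (k + 2)) (watt R r (k + 2)) := Wdg.wdg_podata (R := R)
  have hY : LCS Unit := lcs_discrete
  have hB : LCS (Sx R r × Pool.Agent.H4.CU.Qb (k + 2)) := lcs_prod lcs_discrete lcs_compact
  have h1 : Triv (PF.comp Ψ (jYc (bF (Sx R r) (k + 2)) (watt R r (k + 2)))) (fun _ => (1 : G)) := by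
    intro x y p
    rw [PF.const' _ p (fun t => Subsingleton.elim _ _), inv_one, one_mul]
  obtain ⟨g, hg, _⟩ := cells_triv (F := Sx R r) (Y := Unit) k hD hY hB Ψ (fun _ => 1) h1
  exact ⟨g, hg⟩

theorem wdg_fil1 (R : Type) [Finite R] (r k : ℕ) : Fil (Wdg R r (k + 2)) 1 :=
  fil1_of_sc1 (wdg_fil0 R r (k + 1)) (wdg_sc1 R r k)

theorem rec_int {G : Type} [Group G] (ρ : ℤ → G) :
    ∃ h : ℤ → G, ∀ k, h k = h (k - 1) * ρ k := by
  let f : ℕ → G := fun n => Nat.rec 1 (fun n x => x * ρ ((n : ℤ) + 1)) n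
  let g : ℕ → G := fun n => Nat.rec 1 (fun n x => x * (ρ (-(n : ℤ)))⁻¹) n
  have hf : ∀ n, f (n + 1) = f n * ρ ((n : ℤ) + 1) := fun n => rfl
  have hg : ∀ n, g (n + 1) = g n * (ρ (-(n : ℤ)))⁻¹ := fun n => rfl
  let h : ℤ → G := fun k => if 0 ≤ k then f k.toNat else g (-k).toNat
  have h1 : ∀ n : ℕ, h (n : ℤ) = f n := by
    intro n
    change (if 0 ≤ (n : ℤ) then f (n : ℤ).toNat else g (-(n : ℤ)).toNat) = f n
    rw [if_pos (Int.natCast_nonneg n), Int.toNat_natCast]
  have h2 : ∀ n : ℕ, h (-(n : ℤ)) = g n := by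
    intro n
    rcases Nat.eq_zero_or_pos n with rfl | hn
    · have h3 := h1 0
      rw [Int.natCast_zero] at h3 ⊢
      rw [neg_zero, h3]
      rfl
    · change (if 0 ≤ (-(n : ℤ)) then f (-(n : ℤ)).toNat else g (-(-(n : ℤ))).toNat) = g n
      rw [if_neg (by omega), neg_neg, Int.toNat_natCast]
  refine ⟨h, fun k => ?_⟩
  rcases lt_or_ge 0 k with hk | hk
  · obtain ⟨n, rfl⟩ : ∃ n : ℕ, k = ((n + 1 : ℕ) : ℤ) := ⟨(k - 1).toNat, by omega⟩
    have h3 : ((n + 1 : ℕ) : ℤ) - 1 = (n : ℤ) := by push_cast; ring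
    rw [h3, h1, h1, hf]
    congr 2
  · obtain ⟨n, rfl⟩ : ∃ n : ℕ, k = -(n : ℤ) := ⟨(-k).toNat, by omega⟩
    have h3 : -(n : ℤ) - 1 = -((n + 1 : ℕ) : ℤ) := by push_cast; ring
    rw [h3, h2, h2, hg, inv_mul_cancel_right]

section

variable {L : Type} [TopologicalSpace L] [CompactSpace L] [MetrizableSpace L] [Nonempty L]
  {p q : L → L}

omit [CompactSpace L] [MetrizableSpace L] [Nonempty L] in
private theorem joined_pair (h0 : Fil L 0) (v v' : ℤ × L) (h : v.1 = v'.1) : Joined v v' := by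
  obtain ⟨k, l⟩ := v
  obtain ⟨k', l'⟩ := v'
  obtain rfl : k = k' := h
  obtain ⟨γ⟩ := (fil0_iff.1 h0) l l'
  exact ⟨γ.map (f := fun x => (k, x)) (by fun_prop)⟩

omit [CompactSpace L] [MetrizableSpace L] [Nonempty L] in
private theorem joined_fst (v v' : ℤ × L) (h : Joined v v') : v.1 = v'.1 := by
  obtain ⟨γ⟩ := h
  have h1 : (γ 0).1 = (γ 1).1 := PreconnectedSpace.constant (f := fun t => (γ t).1)
    inferInstance (continuous_fst.comp γ.continuous)
  rw [γ.source, γ.target] at h1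
  exact h1

theorem tel_fil0 (hp : Continuous p) (hq : Continuous q) (h0 : Fil L 0) : Fil (Tel p q) 0 := by
  obtain ⟨l0⟩ := (inferInstance : Nonempty L)
  have hd0 : Continuous (telD0 q) := (telD0_proper hq).continuous
  have hd1 : Continuous (telD1 p) := (telD1_proper hp).continuous
  refine fil0_hc (d₀ := ⟨telD0 q, hd0⟩) (d₁ := ⟨telD1 p, hd1⟩) (fun v : ℤ × L => v.1)
    (fun v v' h => joined_pair h0 v v' h) (fun e : ℤ × L => e.1) (fun k => k - 1) (fun k => k)
    (fun _ => rfl) (fun _ => rfl) ?_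
  intro f hf
  have h1 : ∀ k : ℤ, f (k - 1) ↔ f k := fun k => hf (k, l0)
  have h2 : ∀ k : ℤ, f k ↔ f 0 := by
    intro k
    induction k using Int.induction_on with
    | zero => exact Iff.rfl
    | succ n ih =>
      have h3 := h1 ((n : ℤ) + 1)
      rw [add_sub_cancel_right] at h3
      exact h3.symm.trans ih
    | pred n ih => exact (h1 (-(n : ℤ))).trans ih
  exact fun i i' => (h2 i).trans (h2 i').symm

theorem tel_sc1 (hp : Continuous p) (hq : Continuous q) (h0 : Fil L 0) (hL : SC1 L) :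
    SC1 (Tel p q) := by
  have hd0 : Continuous (telD0 q) := (telD0_proper hq).continuous
  have hd1 : Continuous (telD1 p) := (telD1_proper hp).continuous
  exact sc1_hc (d₀ := ⟨telD0 q, hd0⟩) (d₁ := ⟨telD1 p, hd1⟩)
    (lcs_prod lcs_discrete lcs_compact) (lcs_prod lcs_discrete lcs_compact)
    (telD0_proper hq) (telD1_proper hp) (sc1_prod hL) (fun v : ℤ × L => v.1)
    (fun v v' => ⟨joined_pair h0 v v', joined_fst v v'⟩) (fun e : ℤ × L => e.1)
    (fun v v' h => joined_pair h0 v v' h) (fun k => k - 1) (fun k => k)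
    (fun _ => rfl) (fun _ => rfl) (fun _ _ c => rec_int c)

theorem tel_fil1 (hp : Continuous p) (hq : Continuous q) (h0 : Fil L 0) (hL : SC1 L) :
    Fil (Tel p q) 1 :=
  fil1_of_sc1 (tel_fil0 hp hq h0) (tel_sc1 hp hq h0 hL)

end

end Pool.Agent.H18.VK
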