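import Pool.Agent.H93.VK.Vhc
import Pool.Agent.H18.AR.XcP

set_option autoImplicit false

/-!
# Simple connectivity of the open model (MP_5c3080_gt)

`Xc P p q φ₀ = HC (xcD0 P q φ₀) (xcD1 P p)`, `V = Y ⊕ (Cst P × ℕ × L)`, `E = Cst P × ℕ × L`.
`sc1_hc`, `fil0_hc` with `ι = Option (Cst P × ℕ)`, `κ = Cst P × ℕ`, `cV (inl y) = none`,
`cV (inr (w, k, l)) = some (w, k)`, `cE (w, k, c) = (w, k)`, `a (w, 0) = none`,
`a (w, k + 1) = some (w, k)`, `b (w, k) = some (w, k)`; the attaching maps as continuous maps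
(`xcD0_proper`, `xcD1_proper` give continuity: `IsProperMap.continuous`). `L`, `Y` are path connected
(`Fil _ 0`, `fil0_iff`), `Cst P`, `ℕ` are discrete: `cV v = cV v' ↔ Joined v v'` (a path in
`Y ⊕ (Cst P × ℕ × L)` stays in `Y` or in one `(w, k) × L`: the map `cV` to the discrete set is locally
constant). `SC1 V`: `sc1_sum`, `sc1_prod` twice. `hT`: given `c : κ → G` define `k none = 1`,
`k (some (w, 0)) = c (w, 0)`, `k (some (w, n + 1)) = k (some (w, n)) * c (w, n + 1)`. `hconn`: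
`f none ↔ f (some (w, 0))`, `f (some (w, n)) ↔ f (some (w, n + 1))` (`L` nonempty), induction on `n`.
`xc_fil1`: `fil1_of_sc1`.
-/

namespace Pool.Agent.H18.VK

open unitInterval Set TopologicalSpace Pool.Agent.H18.AR Pool.H93.HM Pool.H93.HU Pool.H93.VK

variable {L : Type} [TopologicalSpace L] [CompactSpace L] [MetrizableSpace L] [Nonempty L]
  {p q : L → L} {G : Type} [Group G] [Countable G] {P : Subgroup G} {Y : Type}
  [TopologicalSpace Y] [MulAction G Y] [ContinuousConstSMul G Y] {φ₀ : L → Y}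

/-- the component of a point of the vertex space -/
private def cV (P : Subgroup G) (Y L : Type) : Y ⊕ (Cst P × ℕ × L) → Option (Cst P × ℕ) :=
  Sum.elim (fun _ => none) (fun x => some (x.1, x.2.1))

/-- the index of a cylinder -/
private def cE (P : Subgroup G) (L : Type) : Cst P × ℕ × L → Cst P × ℕ := fun x => (x.1, x.2.1)

/-- the component at `0` of a cylinder -/
private def ca (P : Subgroup G) (j : Cst P × ℕ) : Option (Cst P × ℕ) :=
  match j with
  | (_, 0) => none
  | (w, k + 1) => some (w, k)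

omit [CompactSpace L] [MetrizableSpace L] [Nonempty L] [Countable G] [MulAction G Y]
  [ContinuousConstSMul G Y] in
private theorem cV_lc : IsLocallyConstant (cV P Y L) := by
  intro s
  rw [isOpen_sum_iff]
  refine ⟨?_, ?_⟩
  · have : (Sum.inl ⁻¹' (cV P Y L ⁻¹' s) : Set Y) = {_y | none ∈ s} := rfl
    rw [this]
    exact isOpen_const
  · have : (Sum.inr ⁻¹' (cV P Y L ⁻¹' s) : Set (Cst P × ℕ × L)) =
        (fun x : Cst P × ℕ × L => (x.1, x.2.1)) ⁻¹' {j | some j ∈ s} := rfl
    rw [this]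
    exact (isOpen_discrete _).preimage
      (continuous_fst.prodMk (continuous_fst.comp continuous_snd))

omit [CompactSpace L] [MetrizableSpace L] [Nonempty L] [Countable G] [MulAction G Y]
  [ContinuousConstSMul G Y] in
private theorem cV_eq (h0 : Fil L 0) (hY0 : Fil Y 0) (v v' : Y ⊕ (Cst P × ℕ × L)) :
    cV P Y L v = cV P Y L v' ↔ Joined v v' := by
  rw [fil0_iff] at h0 hY0
  constructor
  · intro h
    rcases v with y | ⟨w, k, l⟩ <;> rcases v' with y' | ⟨w', k', l'⟩
    · exact (hY0 y y').map continuous_inl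
    · cases h
    · cases h
    · have h2 : ((w, k) : Cst P × ℕ) = (w', k') := Option.some_injective _ h
      obtain ⟨rfl, rfl⟩ := Prod.mk.inj h2
      exact (h0 l l').map (f := fun l : L => (Sum.inr (w, k, l) : Y ⊕ (Cst P × ℕ × L)))
        (continuous_inr.comp (continuous_const.prodMk (continuous_const.prodMk continuous_id)))
  · rintro ⟨γ⟩
    have h := ((cV_lc (P := P) (Y := Y) (L := L)).comp_continuous
      γ.continuous).apply_eq_of_preconnectedSpace 0 1
    simp only [Function.comp_apply, γ.source, γ.target] at h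
    exact h

omit [CompactSpace L] [MetrizableSpace L] [Nonempty L] [Countable G]
  [ContinuousConstSMul G Y] [TopologicalSpace Y] [TopologicalSpace L] in
private theorem ca_eq (e : Cst P × ℕ × L) : cV P Y L (xcD0 P q φ₀ e) = ca P (cE P L e) := by
  rcases e with ⟨w, k, c⟩
  cases k <;> rfl

omit [CompactSpace L] [MetrizableSpace L] [Nonempty L] [Countable G] [MulAction G Y]
  [ContinuousConstSMul G Y] [TopologicalSpace Y] [TopologicalSpace L] in
private theorem cb_eq (e : Cst P × ℕ × L) : cV P Y L (xcD1 (Y := Y) P p e) = some (cE P L e) :=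
  rfl

theorem xc_fil0 (hY : LCS Y) (pY : ProperAct G Y) (hp : Continuous p) (hq : Continuous q)
    (hφ : Continuous φ₀) (h0 : Fil L 0) (hY0 : Fil Y 0) : Fil (Xc P p q φ₀) 0 := by
  have c0 : Continuous (xcD0 P q φ₀) := (xcD0_proper hY pY hq hφ).continuous
  have c1 : Continuous (xcD1 (Y := Y) P p) := (xcD1_proper hY hp).continuous
  refine fil0_hc (⟨xcD0 P q φ₀, c0⟩ : C(Cst P × ℕ × L, Y ⊕ (Cst P × ℕ × L)))
    (⟨xcD1 (Y := Y) P p, c1⟩ : C(Cst P × ℕ × L, Y ⊕ (Cst P × ℕ × L)))
    (cV P Y L) (fun v v' => (cV_eq h0 hY0 v v').1) (cE P L) (ca P) (fun j => some j)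
    (fun e => ca_eq e) (fun e => cb_eq e) ?_
  intro f hf
  obtain ⟨l0⟩ := (inferInstance : Nonempty L)
  have key : ∀ (w : Cst P) (n : ℕ), f none ↔ f (some (w, n)) := by
    intro w n
    induction n with
    | zero => exact hf (w, 0, l0)
    | succ n ih => exact ih.trans (hf (w, n + 1, l0))
  have key2 : ∀ i, f none ↔ f i := by
    rintro (_ | ⟨w, n⟩)
    · exact Iff.rfl
    · exact key w n
  exact fun i i' => (key2 i).symm.trans (key2 i')

theorem xc_sc1 (hY : LCS Y) (pY : ProperAct G Y) (hp : Continuous p) (hq : Continuous q)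
    (hφ : Continuous φ₀) (h0 : Fil L 0) (hY0 : Fil Y 0) (hL : SC1 L) (sY : SC1 Y) :
    SC1 (Xc P p q φ₀) := by
  have p0 := xcD0_proper (P := P) hY pY hq hφ
  have p1 := xcD1_proper (P := P) hY hp
  have hE : LCS (Cst P × ℕ × L) := lcs_prod lcs_discrete (lcs_prod lcs_discrete lcs_compact)
  refine sc1_hc (⟨xcD0 P q φ₀, p0.continuous⟩ : C(Cst P × ℕ × L, Y ⊕ (Cst P × ℕ × L)))
    (⟨xcD1 (Y := Y) P p, p1.continuous⟩ : C(Cst P × ℕ × L, Y ⊕ (Cst P × ℕ × L)))
    (lcs_sum hY hE) hE p0 p1 (sc1_sum sY (sc1_prod (sc1_prod hL)))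
    (cV P Y L) (cV_eq h0 hY0) (cE P L) ?_ (ca P) (fun j => some j)
    (fun e => ca_eq e) (fun e => cb_eq e) ?_
  · rintro ⟨w, k, l⟩ ⟨w', k', l'⟩ h
    obtain ⟨rfl, rfl⟩ := Prod.mk.inj (h : ((w, k) : Cst P × ℕ) = (w', k'))
    exact ((fil0_iff.1 h0) l l').map (f := fun l : L => ((w, k, l) : Cst P × ℕ × L))
      (continuous_const.prodMk (continuous_const.prodMk continuous_id))
  · intro K _ c
    let k : ∀ _ : Cst P, ℕ → K := fun w n => Nat.rec (c (w, 0)) (fun n x => x * c (w, n + 1)) n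
    refine ⟨fun i => match i with
      | none => 1
      | some j => k j.1 j.2, ?_⟩
    rintro ⟨w, n⟩
    cases n with
    | zero =>
      change c (w, 0) = 1 * c (w, 0)
      rw [one_mul]
    | succ n => rfl

theorem xc_fil1 (hY : LCS Y) (pY : ProperAct G Y) (hp : Continuous p) (hq : Continuous q)
    (hφ : Continuous φ₀) (h0 : Fil L 0) (hY0 : Fil Y 0) (hL : SC1 L) (sY : SC1 Y) :
    Fil (Xc P p q φ₀) 1 :=
  fil1_of_sc1 (xc_fil0 hY pY hp hq hφ h0 hY0) (xc_sc1 hY pY hp hq hφ h0 hY0 hL sY)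

end Pool.Agent.H18.VK
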